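import Pool.Agent.U918.LP.Four

/-!
# Four squares with `p = x² + 3y² + 5z² + 7w²`: `p + 2 h₁, …, p + 2 h_r` prime, arbitrary weights on the representations

For all but a share `log ^ (-U) X` of the integers `n ≤ X / 7` the following holds. Let `W` be ANY bounded real weight on
the representations `n = x² + y² + z² + w²` by positive integers, for example the indicator of an arbitrary set of
them. For all but a share `log ^ (-U) X` of the vectors `(h₁, …, h_r)` of integers `1 ≤ h_i ≤ B X`, the sum of `W` over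
the representations for which all the numbers `p + 2 h_i`, `p = x² + 3y² + 5z² + 7w²`, are prime is the sum of
`W ∏ 1 / (V t log (p + 2 h_i))` over the representations for which all the numbers `p + 2 h_i` are free of primes `≤ t`,
up to an error `X / log ^ D X`; here `t` is a power of `log X`, `V t = ∏_{l ≤ t} (1 - 1/l)`, and this holds
simultaneously for all residue classes of `p` to all moduli up to `log ^ K X`. The number of representations of an odd
`n` is of order at least `n`. The question is the pair of shifts `0`, `-2` in place of `2 h₁`, `2 h₂`.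
-/

set_option autoImplicit false

open Finset

namespace Pool.Agent.Results.MP_0ad054_nt.ArbitraryRepresentations

/-- the product of `1 - 1/l` over the primes `l ≤ t` -/
noncomputable def V (t : ℕ) : ℝ := ∏ l ∈ (Icc 1 t).filter Nat.Prime, (1 - 1 / (l : ℝ))

/-- the representations of `n` by four positive squares (each of the four integers is at most `n`) -/
def reps (n : ℕ) : Finset (ℕ × ℕ × ℕ × ℕ) :=
  (Icc 1 n ×ˢ Icc 1 n ×ˢ Icc 1 n ×ˢ Icc 1 n).filter (fun Q => Q.1 ^ 2 + Q.2.1 ^ 2 + Q.2.2.1 ^ 2 + Q.2.2.2 ^ 2 = n)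

/-- `p = x² + 3 y² + 5 z² + 7 w²` -/
def p (Q : ℕ × ℕ × ℕ × ℕ) : ℕ := Q.1 ^ 2 + 3 * Q.2.1 ^ 2 + 5 * Q.2.2.1 ^ 2 + 7 * Q.2.2.2 ^ 2

open Classical in
/-- the sum of `W Q` over the representations `Q` of `n` with `p Q ≡ a mod q` for which all the numbers
`p Q + 2 h i` are prime -/
noncomputable def primeSum {r : ℕ} (n : ℕ) (W : ℕ × ℕ × ℕ × ℕ → ℝ) (h : Fin r → ℕ) (q a : ℕ) : ℝ :=
  ∑ Q ∈ (reps n).filter (fun Q => p Q ≡ a [MOD q] ∧ ∀ i, (p Q + 2 * h i).Prime), W Q

open Classical in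
/-- the sum of `W Q / ∏ (V t · log (p Q + 2 h i))` over the representations `Q` of `n` with `p Q ≡ a mod q` for which no
prime `l ≤ t` divides any of the numbers `p Q + 2 h i` -/
noncomputable def modelSum {r : ℕ} (t n : ℕ) (W : ℕ × ℕ × ℕ × ℕ → ℝ) (h : Fin r → ℕ) (q a : ℕ) : ℝ :=
  ∑ Q ∈ (reps n).filter (fun Q => p Q ≡ a [MOD q] ∧ ∀ i, ∀ l : ℕ, l.Prime → l ≤ t → ¬ l ∣ p Q + 2 * h i),
    W Q * ∏ i, (V t * Real.log ((p Q + 2 * h i : ℕ) : ℝ))⁻¹

open Classical in
/-- **The theorem.** For all `r`, `B`, `U`, `D`, `K` there is `B₀` such that for every `E` and every large `X` there is a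
set `S` of at most `X / log ^ U X` integers such that for every integer `t` with `log ^ B₀ X ≤ t ≤ log ^ E X`, every
`n ≤ X / 7` not in `S` and EVERY weight `W` with `|W Q| ≤ 1`: for all but at most `X ^ r / log ^ U X` of the vectors `h`
of integers `1 ≤ h i ≤ B X`, one has for all moduli `1 ≤ q ≤ log ^ K X` and all classes `a` that `primeSum n W h q a` and
`modelSum t n W h q a` differ by at most `X / log ^ D X`. -/
theorem result (r B U D K : ℕ) :
    ∃ B₀ : ℕ, ∀ E : ℕ, ∃ X₀ : ℕ, ∀ X : ℕ, X₀ ≤ X → ∃ S : Finset ℕ, (S.card : ℝ) ≤ X / Real.log X ^ U ∧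
    ∀ t : ℕ, Real.log X ^ B₀ ≤ t → (t : ℝ) ≤ Real.log X ^ E →
    ∀ n : ℕ, 7 * n ≤ X → n ∉ S → ∀ W : ℕ × ℕ × ℕ × ℕ → ℝ, (∀ Q, |W Q| ≤ 1) →
    (((Fintype.piFinset (fun _ : Fin r => Icc 1 (B * X))).filter (fun h =>
      ∃ q a : ℕ, 1 ≤ q ∧ (q : ℝ) ≤ Real.log X ^ K ∧
        (X : ℝ) / Real.log X ^ D < |primeSum n W h q a - modelSum t n W h q a|)).card : ℝ) ≤
      (X : ℝ) ^ r / Real.log X ^ U := by
  obtain ⟨B₀, h0⟩ := Pool.Agent.U918.LP.four r B U D K
  refine ⟨B₀, fun E => ?_⟩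
  obtain ⟨x0, hx0⟩ := h0 E
  refine ⟨x0, fun X hX => ?_⟩
  obtain ⟨S, hS1, hS2⟩ := hx0 X hX
  refine ⟨S, hS1, fun t ht1 ht2 n hn hnS W hW => ?_⟩
  refine le_trans (le_of_eq ?_) (hS2 t ht1 ht2 n hn hnS W hW)
  have e : ∀ (h : Fin r → ℕ) (q a : ℕ), primeSum n W h q a - modelSum t n W h q a =
      ∑ Q ∈ Pool.Agent.U918.LP.reps n, W Q * (Pool.Agent.U918.LP.ph1 h q a (Pool.Agent.U918.LP.p4 Q) -
        Pool.Agent.U918.LP.ph2 t h q a (Pool.Agent.U918.LP.p4 Q)) := by
    intro h q a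
    unfold primeSum modelSum
    rw [sum_filter, sum_filter, ← sum_sub_distrib]
    apply sum_congr rfl
    intro Q _
    have hp : Pool.Agent.U918.LP.p4 Q = p Q := rfl
    have hV : Pool.Agent.H373R2.T7.Vz t = V t := rfl
    rw [hp]
    unfold Pool.Agent.U918.LP.ph1 Pool.Agent.U918.LP.ph2
    rw [hV, mul_sub]
    congr 1
    · split_ifs <;> simp
    · split_ifs <;> simp
  simp only [e]

end Pool.Agent.Results.MP_0ad054_nt.ArbitraryRepresentations
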