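import Pool.Agent.U996.FQ.Law
import Pool.Agent.W65.FS.Lower

/-!
# Four squares: `⌊γ_i (x² + 3 y² + 5 z² + 7 w²)⌋ + h_i` prime, for almost every vector `γ`

The question is the case `γ = (1, 1)`, `h = (0, -2)`. For almost every vector of positive real numbers `γ_0, …, γ_k` and
all integers `h_0, …, h_k`, nearly all odd `n` are sums of four squares `x² + y² + z² + w²` such that with
`m = x² + 3 y² + 5 z² + 7 w²` all the numbers `⌊γ_i m⌋ + h_i` are prime, and the number of these representations is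
asymptotically the number of all representations divided by `(log n)^(k + 1)`. The same law holds for the
representations in arbitrary sets `A_n` of vectors, and, for the numbers of the different values `m`, for nearly all
members `n` of an arbitrary set (all large members, if it is sparse).
-/

set_option autoImplicit false

namespace Pool.Agent.Results.MP_0ad054_nt.MetricFourSquares

open Finset MeasureTheory Filter Topology

/-- `z` is a (positive) prime number -/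
def IsPrime (z : ℤ) : Prop := z.toNat.Prime

/-- the representations of `n` as a sum of four squares -/
def four (n : ℕ) : Set (Fin 4 → ℤ) := {v | v 0 ^ 2 + v 1 ^ 2 + v 2 ^ 2 + v 3 ^ 2 = n}

/-- the value `x² + 3 y² + 5 z² + 7 w²` -/
def form (v : Fin 4 → ℤ) : ℤ := v 0 ^ 2 + 3 * v 1 ^ 2 + 5 * v 2 ^ 2 + 7 * v 3 ^ 2

/-- all the numbers `⌊γ_i m⌋ + h_i` are prime -/
def Good {t : ℕ} (γ : Fin t → ℝ) (h : Fin t → ℤ) (m : ℤ) : Prop := ∀ i, IsPrime (⌊γ i * (m : ℝ)⌋ + h i)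

/-- the number of the representations of `n` which belong to `A` and whose value satisfies the condition -/
noncomputable def reps {t : ℕ} (γ : Fin t → ℝ) (h : Fin t → ℤ) (A : Set (Fin 4 → ℤ)) (n : ℕ) : ℕ :=
  Set.ncard {v | v ∈ four n ∧ v ∈ A ∧ Good γ h (form v)}

/-- the number of all representations of `n` which belong to `A` -/
noncomputable def size (A : Set (Fin 4 → ℤ)) (n : ℕ) : ℕ := Set.ncard {v | v ∈ four n ∧ v ∈ A}

/-- the odd numbers -/
def Odds : Set ℕ := {n | Odd n}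

/-- the values of the representations of `n` which belong to `A` -/
def values (A : Set (Fin 4 → ℤ)) (n : ℕ) : Set ℤ := {m | ∃ v, v ∈ four n ∧ v ∈ A ∧ form v = m}

/-- the members of `𝒩` in `[2 ^ i, 2 ^ (i + 1))` -/
def block (𝒩 : Set ℕ) (i : ℕ) : Set ℕ := {n | n ∈ 𝒩 ∧ 2 ^ i ≤ n ∧ n < 2 ^ (i + 1)}

/-- `E n` is true for nearly all members `n` of `𝒩`: for all `K` and all large `i` at most `|block| / i ^ K` members `n`
of the block of `𝒩` in `[2 ^ i, 2 ^ (i + 1))` violate `E n`; and if the blocks have at most `i ^ A` members (for some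
`A` and all large `i`), then all large `n ∈ 𝒩` satisfy `E n` -/
def Nearly (𝒩 : Set ℕ) (E : ℕ → Prop) : Prop :=
  (∀ K : ℕ, ∀ᶠ i : ℕ in atTop,
    (Set.ncard {n | n ∈ block 𝒩 i ∧ ¬ E n} : ℝ) ≤ Set.ncard (block 𝒩 i) / (i : ℝ) ^ K) ∧
  ((∃ A : ℕ, ∀ᶠ i : ℕ in atTop, Set.ncard (block 𝒩 i) ≤ i ^ A) → ∀ᶠ n : ℕ in atTop, n ∈ 𝒩 → E n)

open Pool.Agent.U996.UW Pool.Agent.U996.GB Pool.Agent.U996.FQ

lemma block_eq (𝒩 : Set ℕ) (i : ℕ) : block 𝒩 i = ((dy 𝒩 i : Finset ℕ) : Set ℕ) := by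
  classical
  ext n
  unfold block dy
  simp only [Set.mem_ofPred_eq, Finset.coe_filter, Finset.mem_Ico]
  tauto

lemma block_card (𝒩 : Set ℕ) (i : ℕ) : Set.ncard (block 𝒩 i) = (dy 𝒩 i).card := by
  rw [block_eq, Set.ncard_coe_finset]

lemma dy_le {𝒩 : Set ℕ} {i n : ℕ} (hn : n ∈ dy 𝒩 i) : i ≤ n := by
  classical
  unfold dy at hn
  rw [mem_filter, mem_Ico] at hn
  have h7 : i < 2 ^ i := Nat.lt_two_pow_self
  omega

/-- from exceptional sets to `Nearly` -/
lemma nearly_of (𝒩 : Set ℕ) (F G : ℕ → ℝ)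
    (hF : ∀ K : ℕ, ∀ᶠ i : ℕ in atTop,
      (((dy 𝒩 i).filter fun n : ℕ => (n : ℝ) / Real.log n ^ K < |F n|).card : ℝ) * i ^ K ≤ (dy 𝒩 i).card)
    (hG : ∀ K : ℕ, ∀ᶠ i : ℕ in atTop,
      (((dy 𝒩 i).filter fun n : ℕ => (n : ℝ) / Real.log n ^ K < |G n|).card : ℝ) * i ^ K ≤ (dy 𝒩 i).card)
    (D : ℕ) (E : ℕ → Prop)
    (h : ∀ᶠ n : ℕ in atTop, |F n| ≤ n / Real.log n ^ D → |G n| ≤ n / Real.log n ^ D → E n) :
    Nearly 𝒩 E := by
  classical
  have key : ∀ K : ℕ, ∀ᶠ i : ℕ in atTop,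
      (((dy 𝒩 i).filter fun n : ℕ => ¬ E n).card : ℝ) * i ^ K ≤ (dy 𝒩 i).card := by
    intro K
    obtain ⟨n1, hn1⟩ := (h.and (nlog.eventually_ge_atTop 1)).exists_forall_of_atTop
    filter_upwards [hF (K + D + 1), hG (K + D + 1), eventually_ge_atTop n1, eventually_ge_atTop 2] with i h1 h2 h3 h4
    have hi2 : (2 : ℝ) ≤ i := by exact_mod_cast h4
    have hi1 : (1 : ℝ) ≤ i := by linarith
    have hsub : ((dy 𝒩 i).filter fun n : ℕ => ¬ E n) ⊆
        ((dy 𝒩 i).filter fun n : ℕ => (n : ℝ) / Real.log n ^ (K + D + 1) < |F n|) ∪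
        ((dy 𝒩 i).filter fun n : ℕ => (n : ℝ) / Real.log n ^ (K + D + 1) < |G n|) := by
      intro n hn
      rw [mem_filter] at hn
      rw [mem_union, mem_filter, mem_filter]
      by_contra hcon
      push Not at hcon
      obtain ⟨c1, c2⟩ := hcon
      have d1 := c1 hn.1
      have d2 := c2 hn.1
      obtain ⟨g1, g2⟩ := hn1 n (h3.trans (dy_le hn.1))
      have hpow : (n : ℝ) / Real.log n ^ (K + D + 1) ≤ n / Real.log n ^ D := by
        apply div_le_div_of_nonneg_left (Nat.cast_nonneg _) (by positivity)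
        exact pow_le_pow_right₀ g2 (by omega)
      exact hn.2 (g1 (d1.trans hpow) (d2.trans hpow))
    have h5 := (Finset.card_le_card hsub).trans (Finset.card_union_le _ _)
    have h6 : (((dy 𝒩 i).filter fun n : ℕ => ¬ E n).card : ℝ) ≤
        (((dy 𝒩 i).filter fun n : ℕ => (n : ℝ) / Real.log n ^ (K + D + 1) < |F n|).card : ℝ) +
        (((dy 𝒩 i).filter fun n : ℕ => (n : ℝ) / Real.log n ^ (K + D + 1) < |G n|).card : ℝ) := by
      exact_mod_cast h5
    have h7 : (((dy 𝒩 i).filter fun n : ℕ => ¬ E n).card : ℝ) * i ^ (K + D + 1) ≤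
        2 * ((dy 𝒩 i).card : ℝ) := by
      have := mul_le_mul_of_nonneg_right h6 (show (0 : ℝ) ≤ (i : ℝ) ^ (K + D + 1) by positivity)
      linarith
    have h8 : (2 : ℝ) * (i : ℝ) ^ K ≤ (i : ℝ) ^ (K + D + 1) := by
      calc (2 : ℝ) * (i : ℝ) ^ K ≤ i * (i : ℝ) ^ K := mul_le_mul_of_nonneg_right hi2 (by positivity)
        _ = (i : ℝ) ^ (K + 1) := by ring
        _ ≤ _ := pow_le_pow_right₀ hi1 (by omega)
    have h9 := mul_le_mul_of_nonneg_left h8
      (Nat.cast_nonneg ((dy 𝒩 i).filter fun n : ℕ => ¬ E n).card : (0 : ℝ) ≤ _)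
    linarith
  refine ⟨fun K => ?_, ?_⟩
  · filter_upwards [key K, eventually_ge_atTop 1] with i hi hi1
    have hi0 : (0 : ℝ) < i := by exact_mod_cast hi1
    have e1 : {n | n ∈ block 𝒩 i ∧ ¬ E n} = (((dy 𝒩 i).filter fun n : ℕ => ¬ E n : Finset ℕ) : Set ℕ) := by
      ext n
      rw [block_eq]
      simp only [Set.mem_ofPred_eq, Finset.coe_filter, Finset.mem_coe]
    rw [e1, Set.ncard_coe_finset, block_card, le_div_iff₀ (by positivity)]
    exact hi
  · rintro ⟨A, hA⟩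
    obtain ⟨i1, hi1⟩ := ((key (A + 1)).and (hA.and (eventually_ge_atTop 2))).exists_forall_of_atTop
    filter_upwards [eventually_ge_atTop (2 ^ i1), eventually_ge_atTop 1] with n hn hn1 hnN
    obtain ⟨i, hi⟩ : ∃ i, i = Nat.log 2 n := ⟨_, rfl⟩
    have hii : i1 ≤ i := by
      rw [hi]
      exact Nat.le_log_of_pow_le (by norm_num) hn
    obtain ⟨c1, c2, c3⟩ := hi1 i hii
    by_contra hcon
    have hmem : n ∈ (dy 𝒩 i).filter fun n : ℕ => ¬ E n := by
      rw [mem_filter]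
      refine ⟨?_, hcon⟩
      unfold dy
      rw [mem_filter, mem_Ico, hi]
      exact ⟨⟨Nat.pow_log_le_self 2 (by omega), Nat.lt_pow_succ_log_self (by norm_num) n⟩, hnN⟩
    have h6 : (1 : ℝ) ≤ (((dy 𝒩 i).filter fun n : ℕ => ¬ E n).card : ℝ) := by
      exact_mod_cast Finset.card_pos.2 ⟨n, hmem⟩
    have hi2 : (2 : ℝ) ≤ i := by exact_mod_cast c3
    have h7 : ((dy 𝒩 i).card : ℝ) ≤ (i : ℝ) ^ A := by
      rw [block_card] at c2
      exact_mod_cast c2
    have h8 : (i : ℝ) ^ (A + 1) ≤ (i : ℝ) ^ A := by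
      calc (i : ℝ) ^ (A + 1) = 1 * (i : ℝ) ^ (A + 1) := (one_mul _).symm
        _ ≤ _ := mul_le_mul_of_nonneg_right h6 (by positivity)
        _ ≤ _ := c1.trans h7
    have h9 : (0 : ℝ) < (i : ℝ) ^ A := by positivity
    rw [pow_succ] at h8
    nlinarith


lemma nearly_few (𝒩 : Set ℕ) (hc : ∀ i : ℕ, 1 ≤ i → 2 ^ i ≤ 2 * Set.ncard (block 𝒩 i)) (E : ℕ → Prop)
    (h : Few fun n => n ∈ 𝒩 ∧ ¬ E n) : Nearly 𝒩 E := by
  refine ⟨fun K => ?_, ?_⟩
  · filter_upwards [h (K + 1), eventually_ge_atTop 2] with i h1 h2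
    have e1 : {n | n ∈ block 𝒩 i ∧ ¬ E n} = {n : ℕ | (2 ^ i ≤ n ∧ n < 2 ^ (i + 1)) ∧ (n ∈ 𝒩 ∧ ¬ E n)} := by
      ext n
      unfold block
      simp only [Set.mem_ofPred_eq]
      tauto
    rw [e1]
    have hi2 : (2 : ℝ) ≤ i := by exact_mod_cast h2
    have hi0 : (0 : ℝ) < i := by linarith
    have h5 : ((2 : ℝ) ^ i) ≤ 2 * Set.ncard (block 𝒩 i) := by exact_mod_cast hc i (by omega)
    rw [le_div_iff₀ (by positivity)]
    have h6 : (Set.ncard {n : ℕ | (2 ^ i ≤ n ∧ n < 2 ^ (i + 1)) ∧ (n ∈ 𝒩 ∧ ¬ E n)} : ℝ) * ((i : ℝ) ^ K * i) ≤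
        2 * Set.ncard (block 𝒩 i) := by
      rw [← pow_succ]
      exact h1.trans h5
    have h7 : (0 : ℝ) ≤ (Set.ncard {n : ℕ | (2 ^ i ≤ n ∧ n < 2 ^ (i + 1)) ∧ (n ∈ 𝒩 ∧ ¬ E n)} : ℝ) * (i : ℝ) ^ K := by
      positivity
    nlinarith
  · rintro ⟨A, hA⟩
    exfalso
    have h1 : Tendsto (fun i : ℕ => (i : ℝ) ^ A / (2 : ℝ) ^ i) atTop (𝓝 0) :=
      tendsto_pow_const_div_const_pow_of_one_lt A (by norm_num)
    obtain ⟨i, h2, h3, h4⟩ := (hA.and ((h1.eventually (gt_mem_nhds (show (0 : ℝ) < 1 / 2 by norm_num))).and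
      (eventually_ge_atTop 1))).exists
    rw [div_lt_iff₀ (by positivity)] at h3
    have h5 : ((2 : ℝ) ^ i) ≤ 2 * (i : ℝ) ^ A := by
      exact_mod_cast (hc i h4).trans (Nat.mul_le_mul_left 2 h2)
    linarith

lemma univ_block (i : ℕ) (_ : 1 ≤ i) : 2 ^ i ≤ 2 * Set.ncard (block Set.univ i) := by
  rw [block_card, dy_univ']
  omega

lemma odd_block (i : ℕ) (hi : 1 ≤ i) : 2 ^ i ≤ 2 * Set.ncard (block Odds i) := by
  classical
  rw [block_card]
  have h1 : (Finset.Ico (2 ^ (i - 1)) (2 ^ i)).image (fun k => 2 * k + 1) ⊆ dy Odds i := by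
    intro n hn
    rw [Finset.mem_image] at hn
    obtain ⟨k, hk, rfl⟩ := hn
    rw [Finset.mem_Ico] at hk
    unfold dy
    rw [Finset.mem_filter, Finset.mem_Ico]
    obtain ⟨j, rfl⟩ : ∃ j, i = j + 1 := ⟨i - 1, by omega⟩
    simp only [Nat.add_sub_cancel] at hk
    have e1 : 2 ^ (j + 1) = 2 * 2 ^ j := by ring
    have e2 : 2 ^ (j + 1 + 1) = 2 * 2 ^ (j + 1) := by ring
    exact ⟨⟨by omega, by omega⟩, k, rfl⟩
  have h2 := Finset.card_le_card h1
  rw [Finset.card_image_of_injective _ (fun a b hab => by simpa using hab), Nat.card_Ico] at h2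
  obtain ⟨j, rfl⟩ : ∃ j, i = j + 1 := ⟨i - 1, by omega⟩
  simp only [Nat.add_sub_cancel] at h2
  have e1 : 2 ^ (j + 1) = 2 * 2 ^ j := by ring
  omega

lemma mem_four (n : ℕ) (v : Fin 4 → ℤ) : v ∈ four n ↔ nn v = n := Iff.rfl

lemma size_eq (A : Set (Fin 4 → ℤ)) (n : ℕ) : size A n = (FA A n).card := by
  unfold size
  rw [← Set.ncard_coe_finset]
  congr 1
  ext v
  simp only [Set.mem_ofPred_eq, Finset.mem_coe, mem_FA, mem_four]

open Classical in
lemma gg_eq {k : ℕ} (γ : Fin (k + 1) → ℝ) (h : Fin (k + 1) → ℤ) (m : ℕ) :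
    gg γ h m = if Good γ h (m : ℤ) then 1 else 0 := by
  unfold gg Good IsPrime pz
  rw [Finset.prod_ite_zero]
  simp

open Classical in
lemma reps_eq {k : ℕ} (γ : Fin (k + 1) → ℝ) (h : Fin (k + 1) → ℤ) (A : Set (Fin 4 → ℤ)) (n : ℕ) :
    (reps γ h A n : ℝ) = RR γ h A n := by
  have e1 : {v | v ∈ four n ∧ v ∈ A ∧ Good γ h (form v)} =
      (((FA A n).filter fun v => Good γ h (form v) : Finset (Fin 4 → ℤ)) : Set (Fin 4 → ℤ)) := by
    ext v
    simp only [Set.mem_ofPred_eq, Finset.coe_filter, mem_FA, mem_four]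
    tauto
  unfold reps RR
  rw [e1, Set.ncard_coe_finset, Finset.card_filter]
  push_cast
  refine Finset.sum_congr rfl fun v hv => ?_
  rw [mem_FA] at hv
  rw [gg_eq, fN_cast n v hv.1]
  rfl

/-- the lower bound for the number of representations -/
lemma size_ge (n : ℕ) (hn : Odd n) : n ≤ size Set.univ n * n.divisors.card ^ 2 := by
  have hn0 : n ≠ 0 := by
    rintro rfl
    exact absurd hn (by decide)
  have : NeZero n := ⟨hn0⟩
  have h1 := Pool.Agent.W65.FS.Fset_lower n hn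
  have h2 := (Pool.Agent.W65.FS.Fset_le n hn).trans (Pool.Agent.W65.FS.sol_le n hn)
  have h3 : (Pool.Agent.W65.FS.preps n).card ≤ size Set.univ n := by
    rw [size_eq]
    refine Finset.card_le_card fun v hv => ?_
    unfold Pool.Agent.W65.FS.preps Pool.Agent.W65.FS.reps at hv
    rw [Finset.mem_filter, Finset.mem_filter] at hv
    rw [mem_FA]
    refine ⟨?_, Set.mem_univ _⟩
    have h4 := hv.1.2
    rw [Fin.sum_univ_four] at h4
    exact h4
  exact h1.trans (Nat.mul_le_mul_right _ (h2.trans h3))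

lemma exists_of {k : ℕ} (γ : Fin (k + 1) → ℝ) (h : Fin (k + 1) → ℤ) (n : ℕ) (hr : reps γ h Set.univ n ≠ 0) :
    ∃ v ∈ four n, Good γ h (form v) := by
  unfold reps at hr
  obtain ⟨v, h1, _, h2⟩ := Set.nonempty_of_ncard_ne_zero hr
  exact ⟨v, h1, h2⟩

/-- arbitrary sets of representations -/
lemma part_two (k : ℕ) (A : ℕ → Set (Fin 4 → ℤ)) :
    ∀ᵐ γ : Fin (k + 1) → ℝ, (∀ i, 0 < γ i) → ∀ (h : Fin (k + 1) → ℤ) (ε : ℝ), 0 < ε → ∀ K : ℕ,
      Few fun n => ¬ |(reps γ h (A n) n : ℝ) * Real.log n ^ (k + 1) - size (A n) n| ≤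
        ε * size (A n) n + n / Real.log n ^ K := by
  filter_upwards [law k A] with γ h1 hγ h ε hε K
  have h2 := h1 hγ h ε hε K
  simp only [reps_eq, size_eq]
  exact h2

/-- all representations of odd numbers -/
lemma part_one {k : ℕ} (γ : Fin (k + 1) → ℝ) (h : Fin (k + 1) → ℤ)
    (hlaw : ∀ ε : ℝ, 0 < ε → ∀ K : ℕ, Few fun n => ¬ |(reps γ h Set.univ n : ℝ) * Real.log n ^ (k + 1) -
      size Set.univ n| ≤ ε * size Set.univ n + n / Real.log n ^ K) (ε : ℝ) (hε : 0 < ε) :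
    Few fun n => n ∈ Odds ∧ ¬ (|(reps γ h Set.univ n : ℝ) * Real.log n ^ (k + 1) / size Set.univ n - 1| ≤ ε ∧
      ∃ v ∈ four n, Good γ h (form v)) := by
  obtain ⟨e, he⟩ : ∃ e : ℝ, e = min (ε / 2) (1 / 4) := ⟨_, rfl⟩
  have he0 : 0 < e := by rw [he]; exact lt_min (by positivity) (by norm_num)
  have he1 : e ≤ ε / 2 := by rw [he]; exact min_le_left _ _
  have he2 : e ≤ 1 / 4 := by rw [he]; exact min_le_right _ _
  refine few_of _ fun K => ?_
  obtain ⟨B, hB⟩ : ∃ B : ℕ, B = K + 2 + 1 := ⟨_, rfl⟩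
  refine ⟨_, _, ?_, hlaw e he0 (2 * B + 1) K, few_tau K⟩
  filter_upwards [nlog.eventually_ge_atTop (2 / ε + 4), eventually_ge_atTop 1] with n a1 a2
  rintro ⟨b1, b2⟩
  by_contra hcon
  push Not at hcon
  obtain ⟨c1, c2⟩ := hcon
  apply b2
  obtain ⟨ℓ, hℓ⟩ : ∃ ℓ : ℝ, ℓ = Real.log n := ⟨_, rfl⟩
  rw [← hB] at c2
  rw [← hℓ] at a1 c1 c2 ⊢
  have hεi : 0 < 2 / ε := by positivity
  have hℓ4 : 4 ≤ ℓ := by linarith
  have hℓ0 : 0 < ℓ := by linarith
  have hn0 : (0 : ℝ) < n := by exact_mod_cast a2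
  obtain ⟨s, hs⟩ : ∃ s : ℝ, s = (size Set.univ n : ℝ) := ⟨_, rfl⟩
  have hs1 : (n : ℝ) ≤ s * ℓ ^ (2 * B) := by
    have h1 : (n : ℝ) ≤ s * (n.divisors.card : ℝ) ^ 2 := by
      rw [hs]
      exact_mod_cast size_ge n b1
    have h2 : (n.divisors.card : ℝ) ^ 2 ≤ ℓ ^ (2 * B) := by
      rw [mul_comm 2 B, pow_mul]
      exact pow_le_pow_left₀ (Nat.cast_nonneg _) c2 2
    have hs0 : 0 ≤ s := by rw [hs]; exact Nat.cast_nonneg _
    exact h1.trans (mul_le_mul_of_nonneg_left h2 hs0)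
  have hs0 : 0 < s := by
    by_contra hneg
    push Not at hneg
    have : s * ℓ ^ (2 * B) ≤ 0 := mul_nonpos_of_nonpos_of_nonneg hneg (by positivity)
    linarith
  have h3 : (n : ℝ) / ℓ ^ (2 * B + 1) ≤ s / ℓ := by
    rw [div_le_div_iff₀ (by positivity) hℓ0]
    calc (n : ℝ) * ℓ ≤ s * ℓ ^ (2 * B) * ℓ := mul_le_mul_of_nonneg_right hs1 hℓ0.le
      _ = s * ℓ ^ (2 * B + 1) := by ring
  rw [← hs] at c1 ⊢
  have h4 : s / ℓ ≤ ε / 2 * s := by
    rw [div_le_iff₀ hℓ0]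
    have h7 : 2 / ε ≤ ℓ := by linarith
    rw [div_le_iff₀ hε] at h7
    nlinarith
  have h5 : s / ℓ ≤ 1 / 4 * s := by
    rw [div_le_iff₀ hℓ0]
    nlinarith
  constructor
  · rw [div_sub_one hs0.ne', abs_div, abs_of_pos hs0, div_le_iff₀ hs0]
    have : e * s ≤ ε / 2 * s := mul_le_mul_of_nonneg_right he1 hs0.le
    linarith
  · apply exists_of
    intro h0
    rw [h0, Nat.cast_zero, zero_mul, zero_sub, abs_neg, abs_of_pos hs0] at c1
    have : e * s ≤ 1 / 4 * s := mul_le_mul_of_nonneg_right he2 hs0.le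
    linarith

open Classical in
/-- the indicator of the values -/
noncomputable def wv (A : ℕ → Set (Fin 4 → ℤ)) (n m : ℕ) : ℝ := if mu (A n) n m = 0 then 0 else 1

lemma wv_bd (A : ℕ → Set (Fin 4 → ℤ)) (n m : ℕ) : |wv A n m| ≤ 1 := by
  unfold wv
  split_ifs <;> simp

lemma val_iff (A : Set (Fin 4 → ℤ)) (n m : ℕ) : mu A n m ≠ 0 ↔ (m : ℤ) ∈ values A n := by
  unfold mu
  rw [Finset.card_ne_zero]
  constructor
  · rintro ⟨v, hv⟩
    rw [Finset.mem_filter, mem_FA] at hv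
    refine ⟨v, hv.1.1, hv.1.2, ?_⟩
    rw [← hv.2, fN_cast n v hv.1.1]
    rfl
  · rintro ⟨v, h1, h2, h3⟩
    refine ⟨v, ?_⟩
    rw [Finset.mem_filter, mem_FA]
    refine ⟨⟨h1, h2⟩, ?_⟩
    have h4 := fN_cast n v h1
    have h5 : (fN v : ℤ) = m := by rw [h4]; exact h3
    exact_mod_cast h5

lemma val_nat (A : Set (Fin 4 → ℤ)) (n : ℕ) (z : ℤ) (hz : z ∈ values A n) : ∃ m : ℕ, n ≤ m ∧ m ≤ 7 * n ∧ z = m := by
  obtain ⟨v, h1, _, h3⟩ := hz
  have h4 := fN_cast n v h1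
  have h5 := fN_bd n v h1
  exact ⟨fN v, h5.1, h5.2, by rw [h4, ← h3]; rfl⟩

open Classical in
lemma vals_eq (A : ℕ → Set (Fin 4 → ℤ)) (n : ℕ) (hn : 1 ≤ n) (P : ℤ → Prop) :
    (Set.ncard {m | m ∈ values (A n) n ∧ P m} : ℝ) = ∑ m ∈ Icc 1 (7 * n), wv A n m * (if P (m : ℤ) then 1 else 0) := by
  have e1 : {m | m ∈ values (A n) n ∧ P m} =
      ((((Icc 1 (7 * n)).filter fun m : ℕ => mu (A n) n m ≠ 0 ∧ P (m : ℤ)).image fun m : ℕ => (m : ℤ) :
        Finset ℤ) : Set ℤ) := by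
    ext z
    simp only [Set.mem_ofPred_eq, Finset.coe_image, Finset.coe_filter, Finset.mem_Icc, Set.mem_image]
    constructor
    · rintro ⟨h1, h2⟩
      obtain ⟨m, h3, h4, rfl⟩ := val_nat (A n) n z h1
      exact ⟨m, ⟨⟨by omega, h4⟩, (val_iff (A n) n m).2 h1, h2⟩, rfl⟩
    · rintro ⟨m, ⟨_, h2, h3⟩, rfl⟩
      exact ⟨(val_iff (A n) n m).1 h2, h3⟩
  rw [e1, Set.ncard_coe_finset, Finset.card_image_of_injective _ Nat.cast_injective, Finset.card_filter]
  push_cast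
  refine Finset.sum_congr rfl fun m _ => ?_
  unfold wv
  by_cases h1 : mu (A n) n m = 0
  · simp [h1]
  · by_cases h2 : P (m : ℤ)
    · simp [h1, h2]
    · simp [h2]

/-- the numbers of different values, arbitrary sets of targets -/
lemma part_three (k : ℕ) (𝒩 : Set ℕ) (A : ℕ → Set (Fin 4 → ℤ)) :
    ∀ᵐ γ : Fin (k + 1) → ℝ, (∀ i, 0 < γ i) → ∀ (h : Fin (k + 1) → ℤ) (ε : ℝ), 0 < ε → ∀ K : ℕ,
      Nearly 𝒩 fun n => |(Set.ncard {m | m ∈ values (A n) n ∧ Good γ h m} : ℝ) * Real.log n ^ (k + 1) -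
        Set.ncard (values (A n) n)| ≤ ε * Set.ncard (values (A n) n) + n / Real.log n ^ K := by
  classical
  filter_upwards [er_law k (wv A) (wv_bd A) 𝒩] with γ h1 hγ h ε hε K
  refine nearly_of 𝒩 _ _ (h1 hγ h) (h1 hγ h) (K + k + 1) _ ?_
  filter_upwards [rr_lim γ hγ h ε hε, nlog.eventually_ge_atTop 1, eventually_ge_atTop 1] with n a1 a2 a3 a4 _
  have e1 := vals_eq A n a3 (Good γ h)
  have e2 := vals_eq A n a3 (fun _ => True)
  simp only [and_true, if_true, mul_one] at e2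
  have e3 : {m | m ∈ values (A n) n} = values (A n) n := rfl
  rw [e3] at e2
  simp only [← gg_eq] at e1
  rw [e1, e2]
  obtain ⟨ℓ, hℓ⟩ : ∃ ℓ : ℝ, ℓ = Real.log n := ⟨_, rfl⟩
  rw [← hℓ] at a1 a2 a4 ⊢
  have hℓ0 : 0 < ℓ := by linarith
  have hn0 : (0 : ℝ) < n := by exact_mod_cast a3
  have e4 : (∑ m ∈ Icc 1 (7 * n), wv A n m * gg γ h m) * ℓ ^ (k + 1) - ∑ m ∈ Icc 1 (7 * n), wv A n m =
      (∑ m ∈ Icc 1 (7 * n), wv A n m * (gg γ h m - rr γ h m)) * ℓ ^ (k + 1) +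
      ∑ m ∈ Icc 1 (7 * n), wv A n m * (rr γ h m * ℓ ^ (k + 1) - 1) := by
    rw [Finset.sum_mul, Finset.sum_mul, ← Finset.sum_sub_distrib, ← Finset.sum_add_distrib]
    refine Finset.sum_congr rfl fun m _ => ?_
    ring
  rw [e4]
  have c1 : |(∑ m ∈ Icc 1 (7 * n), wv A n m * (gg γ h m - rr γ h m)) * ℓ ^ (k + 1)| ≤ n / ℓ ^ K := by
    rw [abs_mul, abs_of_pos (by positivity : 0 < ℓ ^ (k + 1))]
    calc |∑ m ∈ Icc 1 (7 * n), wv A n m * (gg γ h m - rr γ h m)| * ℓ ^ (k + 1) ≤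
          n / ℓ ^ (K + k + 1) * ℓ ^ (k + 1) := mul_le_mul_of_nonneg_right a4 (by positivity)
      _ = n / ℓ ^ K := by
          field_simp
          ring
  have c2 : |∑ m ∈ Icc 1 (7 * n), wv A n m * (rr γ h m * ℓ ^ (k + 1) - 1)| ≤ ε * ∑ m ∈ Icc 1 (7 * n), wv A n m := by
    rw [Finset.mul_sum]
    refine (Finset.abs_sum_le_sum_abs _ _).trans (Finset.sum_le_sum fun m _ => ?_)
    by_cases h0 : mu (A n) n m = 0
    · unfold wv
      simp [h0]
    · have d1 := mu_bd (A n) n m h0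
      have d2 := a1 m d1.1 d1.2
      unfold wv
      rw [if_neg h0, one_mul, mul_one]
      exact d2
  refine (abs_add_le _ _).trans ?_
  linarith

/-- The notion of nearly all members of a set of natural numbers is defined above (`Nearly`): it gives all large members
if the set is sparse. Let `k ≥ 0`; the question has `k + 1 = 2` dilations.

(1) For almost every vector of positive real numbers `γ_0, …, γ_k`, all integers `h_0, …, h_k` and all `ε > 0`, for nearly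
all odd `n`: the number of the representations `n = x² + y² + z² + w²` such that all the numbers
`⌊γ_i (x² + 3 y² + 5 z² + 7 w²)⌋ + h_i` are prime is `(1 + O(ε)) / (log n)^(k + 1)` times the number of all
representations of `n`, and there is such a representation.

(2) For any sets `A_n` of vectors, almost every vector `γ` as before, all `h`, `ε > 0` and `K`: for nearly all `n` the
number of such representations which belong to `A_n`, multiplied by `(log n)^(k + 1)`, differs from the number of all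
representations of `n` in `A_n` by at most `ε` times this number plus `n / (log n)^K`.

(3) For any set `𝒩` and any sets `A_n` of vectors, almost every vector `γ` as before, all `h`, `ε > 0` and `K`: for nearly
all `n ∈ 𝒩` the same is true for the numbers of the different values `m = x² + 3 y² + 5 z² + 7 w²` at the
representations of `n` in `A_n`, in place of the numbers of the representations. -/
theorem result (k : ℕ) :
    (∀ᵐ γ : Fin (k + 1) → ℝ, (∀ i, 0 < γ i) → ∀ (h : Fin (k + 1) → ℤ) (ε : ℝ), 0 < ε →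
      Nearly Odds fun n =>
        |(reps γ h Set.univ n : ℝ) * Real.log n ^ (k + 1) / size Set.univ n - 1| ≤ ε ∧
        ∃ v ∈ four n, Good γ h (form v)) ∧
    (∀ A : ℕ → Set (Fin 4 → ℤ),
      ∀ᵐ γ : Fin (k + 1) → ℝ, (∀ i, 0 < γ i) → ∀ (h : Fin (k + 1) → ℤ) (ε : ℝ), 0 < ε → ∀ K : ℕ,
        Nearly Set.univ fun n => |(reps γ h (A n) n : ℝ) * Real.log n ^ (k + 1) - size (A n) n| ≤
          ε * size (A n) n + n / Real.log n ^ K) ∧
    (∀ (𝒩 : Set ℕ) (A : ℕ → Set (Fin 4 → ℤ)),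
      ∀ᵐ γ : Fin (k + 1) → ℝ, (∀ i, 0 < γ i) → ∀ (h : Fin (k + 1) → ℤ) (ε : ℝ), 0 < ε → ∀ K : ℕ,
        Nearly 𝒩 fun n => |(Set.ncard {m | m ∈ values (A n) n ∧ Good γ h m} : ℝ) * Real.log n ^ (k + 1) -
          Set.ncard (values (A n) n)| ≤ ε * Set.ncard (values (A n) n) + n / Real.log n ^ K) := by
  refine ⟨?_, fun A => ?_, fun 𝒩 A => part_three k 𝒩 A⟩
  · filter_upwards [part_two k (fun _ => Set.univ)] with γ h1 hγ h ε hε
    exact nearly_few _ odd_block _ (part_one γ h (fun ε hε K => h1 hγ h ε hε K) ε hε)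
  · filter_upwards [part_two k A] with γ h1 hγ h ε hε K
    refine nearly_few _ univ_block _ (few_mono _ _ (h1 hγ h ε hε K) ?_)
    exact Eventually.of_forall fun n hn => hn.2

end Pool.Agent.Results.MP_0ad054_nt.MetricFourSquares
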