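import Mathlib
import Pool.Agent.N233.GM.Law
import Pool.Agent.U949.CL.Sq

set_option autoImplicit false

/-!
# Power saving errors and exceptional probabilities in random models of the primes

The question is whether every positive odd `n` is a sum of four squares `x² + y² + z² + w²` such that
`p = x² + 3y² + 5z² + 7w²` and `p - 2` are both prime.  In Cramér's model of the primes with a growing sieve
(independent choices; no `m` with a prime factor at most `z(m)` is chosen, the other `m` with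
probability `∏_{q ≤ z(m)} (1 - 1/q)⁻¹ / log m`), `3 ≤ z(m) ≤ m ^ δ`, the number of representations is almost surely
its mean up to a power saving error term, for all large odd `n`, and the probability of an exception
beyond `N` is exponentially small.
-/

open MeasureTheory ProbabilityTheory Filter
open scoped Topology

namespace Pool.Agent.Results.MP_0ad054_nt.PowerSavingInModels

/-- the representations of `n` as a sum of four squares -/
def four (n : ℕ) : Set (ℤ × ℤ × ℤ × ℤ) :=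
  {v | (n : ℤ) = v.1 ^ 2 + v.2.1 ^ 2 + v.2.2.1 ^ 2 + v.2.2.2 ^ 2}

/-- the value `x² + 3y² + 5z² + 7w²` -/
def form (v : ℤ × ℤ × ℤ × ℤ) : ℕ :=
  (v.1 ^ 2 + 3 * v.2.1 ^ 2 + 5 * v.2.2.1 ^ 2 + 7 * v.2.2.2 ^ 2).toNat

/-- the number of `(x, y, z, w)` with `n = x² + y² + z² + w²` such that `p = x² + 3y² + 5z² + 7w²` and
`p - 2` both belong to `S` -/
noncomputable def R (S : Set ℕ) (n : ℕ) : ℕ := {v | v ∈ four n ∧ form v ∈ S ∧ form v - 2 ∈ S}.ncard

/-- `∏_{q ≤ x} (1 - 1/q)⁻¹`, `q` prime -/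
noncomputable def W (x : ℕ) : ℝ := ∏ q ∈ (Finset.Icc 1 x).filter Nat.Prime, (1 - (q : ℝ)⁻¹)⁻¹

open Classical in
/-- the probability that `m` is chosen: `W (z m) / log m` (at most `1`) if `m` has no prime factor at most
`z m`, and `0` otherwise -/
noncomputable def rho (z : ℕ → ℕ) (m : ℕ) : ℝ :=
  if ∀ q, q.Prime → q ≤ z m → ¬ q ∣ m then min 1 (W (z m) / Real.log m) else 0

/-- the expected number of representations: the sum of `rho (p - 2) * rho p` over all `(x, y, z, w)` with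
`n = x² + y² + z² + w²`, `p = x² + 3y² + 5z² + 7w²` -/
noncomputable def E (z : ℕ → ℕ) (n : ℕ) : ℝ := ∑ᶠ v ∈ four n, rho z (form v - 2) * rho z (form v)

open Pool.Agent.R494.RC Pool.Agent.W65.FS Pool.Agent.U949.CL
open Pool.Agent.N233.GM (rho1 Rough)

/-- the four coordinates -/
def coords (X : Fin 4 → ℤ) : ℤ × ℤ × ℤ × ℤ := (X 0, X 1, X 2, X 3)

lemma coords_inj : Function.Injective coords := by
  intro X Y h
  unfold coords at h
  simp only [Prod.mk.injEq] at h
  obtain ⟨h0, h1, h2, h3⟩ := h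
  funext i
  fin_cases i
  · exact h0
  · exact h1
  · exact h2
  · exact h3

lemma form_coords (X : Fin 4 → ℤ) : form (coords X) = val X := rfl

open Classical in
lemma four_eq (n : ℕ) : four n = (((vec n).image coords : Finset (ℤ × ℤ × ℤ × ℤ)) : Set (ℤ × ℤ × ℤ × ℤ)) := by
  ext ⟨x, y, z, w⟩
  rw [Finset.coe_image, Set.mem_image]
  constructor
  · intro h1
    unfold four at h1
    rw [Set.mem_ofPred_eq] at h1
    refine ⟨![x, y, z, w], ?_, rfl⟩
    rw [Finset.mem_coe, mem_vec, Fin.sum_univ_four, h1]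
    rfl
  · rintro ⟨X, hX, hXe⟩
    rw [Finset.mem_coe, mem_vec, Fin.sum_univ_four] at hX
    unfold coords at hXe
    simp only [Prod.mk.injEq] at hXe
    obtain ⟨rfl, rfl, rfl, rfl⟩ := hXe
    exact hX.symm

/-- the representations whose value is `1` modulo `6` -/
noncomputable def Q (n : ℕ) : Finset (Fin 4 → ℤ) := (vec n).filter (fun X => val X % 6 = 1)

/-- the index of the pair -/
noncomputable def idx (X : Fin 4 → ℤ) : ℕ := (val X - 7) / 6

/-- the probability of a pair -/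
noncomputable def pp (z : ℕ → ℕ) (k : ℕ) : ℝ := rho1 z (6 * k + 5) * rho1 z (6 * k + 7)

lemma rho_eq (z : ℕ → ℕ) (m : ℕ) : rho z m = rho1 z m := rfl

lemma not_rough {z : ℕ → ℕ} (hz3 : ∀ m, 3 ≤ z m) {v : ℕ} (hv : 7 ≤ v) (h : v % 6 ≠ 1) :
    (¬ Rough z v) ∨ (¬ Rough z (v - 2)) := by
  by_cases h2 : v % 2 = 0
  · left
    intro hr
    exact hr 2 Nat.prime_two (by have := hz3 v; omega) (Nat.dvd_of_mod_eq_zero h2)
  · by_cases h3 : v % 3 = 0
    · left
      intro hr
      exact hr 3 Nat.prime_three (hz3 v) (Nat.dvd_of_mod_eq_zero h3)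
    · right
      have h5 : v % 6 = 5 := by omega
      have h6 : (v - 2) % 3 = 0 := by omega
      intro hr
      exact hr 3 Nat.prime_three (hz3 _) (Nat.dvd_of_mod_eq_zero h6)

lemma E_eq (z : ℕ → ℕ) (hz3 : ∀ m, 3 ≤ z m) {n : ℕ} (hn : 7 ≤ n) : E z n = Ex (pp z) (Q n) idx := by
  classical
  unfold E
  rw [four_eq, finsum_mem_coe_finset, Finset.sum_image (fun X _ Y _ h => coords_inj h)]
  unfold Ex Q
  rw [Finset.sum_filter]
  refine Finset.sum_congr rfl fun X hX => ?_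
  have hv := val_low hX
  rw [form_coords, rho_eq, rho_eq]
  split_ifs with h
  · unfold pp idx
    have h1 : 6 * ((val X - 7) / 6) + 5 = val X - 2 := by omega
    have h2 : 6 * ((val X - 7) / 6) + 7 = val X := by omega
    rw [h1, h2]
  · rcases not_rough hz3 (show 7 ≤ val X by omega) h with h1 | h1
    · unfold Pool.Agent.N233.GM.rho1
      rw [if_neg h1, mul_zero]
    · unfold Pool.Agent.N233.GM.rho1
      rw [if_neg h1, zero_mul]

lemma R_eq {Ω : Type} [MeasurableSpace Ω] {A : ℕ → Set Ω} (z : ℕ → ℕ) (hz3 : ∀ m, 3 ≤ z m)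
    (hcop : ∀ m, ¬ Rough z m → A m = ∅) (ω : Ω) {n : ℕ} (hn : 7 ≤ n) :
    (R {k : ℕ | ω ∈ A k} n : ℝ) = Co (pr A) (Q n) idx ω := by
  classical
  have h0 : {v | v ∈ four n ∧ form v ∈ {k : ℕ | ω ∈ A k} ∧ form v - 2 ∈ {k : ℕ | ω ∈ A k}} =
      coords '' (((vec n).filter (fun X => ω ∈ A (val X) ∧ ω ∈ A (val X - 2)) : Finset (Fin 4 → ℤ)) :
        Set (Fin 4 → ℤ)) := by
    ext v
    rw [Set.mem_ofPred_eq, four_eq, Finset.coe_image, Set.mem_image, Set.mem_image]
    constructor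
    · rintro ⟨⟨X, hX, rfl⟩, h1, h2⟩
      exact ⟨X, Finset.mem_coe.2 (Finset.mem_filter.2 ⟨hX, h1, h2⟩), rfl⟩
    · rintro ⟨X, hX, rfl⟩
      obtain ⟨h1, h2, h3⟩ := Finset.mem_filter.1 (Finset.mem_coe.1 hX)
      exact ⟨⟨X, h1, rfl⟩, h2, h3⟩
  unfold R Co Q
  rw [h0, Set.ncard_image_of_injective _ coords_inj, Set.ncard_coe_finset, Finset.card_filter, Finset.sum_filter]
  push_cast
  refine Finset.sum_congr rfl fun X hX => ?_
  have hv := val_low hX
  by_cases h : val X % 6 = 1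
  · rw [if_pos h]
    have h1 : 6 * idx X + 5 = val X - 2 := by unfold idx; omega
    have h2 : 6 * idx X + 7 = val X := by unfold idx; omega
    unfold I1 pr
    rw [h1, h2]
    by_cases g : ω ∈ A (val X) ∧ ω ∈ A (val X - 2)
    · rw [if_pos g, Set.indicator_of_mem (show ω ∈ A (val X - 2) ∩ A (val X) from ⟨g.2, g.1⟩)]
    · rw [if_neg g, Set.indicator_of_notMem (fun hc => g ⟨hc.2, hc.1⟩)]
  · rw [if_neg h, if_neg]
    rintro ⟨g1, g2⟩
    rcases not_rough hz3 (show 7 ≤ val X by omega) h with h1 | h1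
    · rw [hcop _ h1] at g1
      exact g1
    · rw [hcop _ h1] at g2
      exact g2

/-- **Power saving in random models of the primes.**  For every `ε` with `0 < ε < 3/8` there is `δ > 0` such that
the following holds.  Let `z(m)` be natural numbers with `z(m) ≥ 3` for all `m` and `z(m) ≤ m ^ δ` for all
large `m`.  Let the events `S m` that `m` is chosen be independent, let no `m` with a prime factor at most
`z(m)` be chosen, and let the other `m` be chosen with probability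
`min(1, ∏_{q ≤ z(m)} (1 - 1/q)⁻¹ / log m)`.  Let `R(n)` be the number of `(x, y, z, w)` with
`n = x² + y² + z² + w²` for which `p = x² + 3y² + 5z² + 7w²` and `p - 2` are chosen, and `E(n)` its mean.
(1) `E(n) ≥ n ^ (1 - ε)` for all large odd `n`.
(2) Almost surely `|R(n) - E(n)| ≤ 3 √(n ^ (5/8) E(n) log n)` for all large odd `n`.
(3) For every `η` with `0 < η ≤ 1` and all large `N` the probability that `|R(n) - E(n)| ≥ η E(n)` for some odd
`n ≥ N` is at most `exp (-N ^ (3/8 - ε))`.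
(4) For all large `N` the probability that `R(n) = 0` for some odd `n ≥ N` is at most `exp (-N ^ (3/8 - ε))`. -/
theorem result (ε : ℝ) (hε : 0 < ε) (hε1 : ε < 3 / 8) : ∃ δ : ℝ, 0 < δ ∧
    ∀ {Ω : Type} [MeasurableSpace Ω] (μ : Measure Ω) [IsProbabilityMeasure μ]
    (S : ℕ → Set Ω) (_ : ∀ m, MeasurableSet (S m)) (_ : iIndepSet S μ) (z : ℕ → ℕ) (_ : ∀ m, 3 ≤ z m)
    (_ : ∀ᶠ m : ℕ in atTop, (z m : ℝ) ≤ (m : ℝ) ^ δ)
    (_ : ∀ m, (∃ q, q.Prime ∧ q ≤ z m ∧ q ∣ m) → S m = ∅)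
    (_ : ∀ m, μ.real (S m) = rho z m),
    (∀ᶠ n : ℕ in atTop, Odd n → (n : ℝ) ^ (1 - ε) ≤ E z n) ∧
    (∀ᵐ ω ∂μ, ∀ᶠ n : ℕ in atTop, Odd n →
      |(R {k | ω ∈ S k} n : ℝ) - E z n| ≤ 3 * √((n : ℝ) ^ (5 / 8 : ℝ) * E z n * Real.log n)) ∧
    (∀ η : ℝ, 0 < η → η ≤ 1 → ∀ᶠ N : ℕ in atTop, μ.real {ω | ∃ n, N ≤ n ∧ Odd n ∧
      η * E z n ≤ |(R {k | ω ∈ S k} n : ℝ) - E z n|} ≤ Real.exp (-(N : ℝ) ^ (3 / 8 - ε))) ∧
    (∀ᶠ N : ℕ in atTop, μ.real {ω | ∃ n, N ≤ n ∧ Odd n ∧ R {k | ω ∈ S k} n = 0} ≤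
      Real.exp (-(N : ℝ) ^ (3 / 8 - ε))) := by
  classical
  obtain ⟨δ₁, hδ₁, hsmall⟩ := Pool.Agent.N233.GM.W_small
  obtain ⟨δ₂, hδ₂, hmany₂⟩ := Pool.Agent.N233.GM.many_rough (ε / 2 / 2) (by positivity)
  refine ⟨min δ₁ δ₂, lt_min hδ₁ hδ₂, ?_⟩
  intro Ω _ μ _ S hS hind z hz3 hz hsieve hp
  have hpow : ∀ δ' : ℝ, min δ₁ δ₂ ≤ δ' → ∀ᶠ n : ℕ in atTop, (z n : ℝ) ≤ (n : ℝ) ^ δ' := by
    intro δ' hδ'
    filter_upwards [hz, eventually_ge_atTop 1] with n h1 h2
    exact h1.trans (Real.rpow_le_rpow_of_exponent_le (by exact_mod_cast h2) hδ')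
  have hV := hsmall z (hpow δ₁ (min_le_left _ _))
  have hm2 := hmany₂ z (hpow δ₂ (min_le_right _ _))
  have hcop : ∀ n, ¬ Rough z n → S n = ∅ := by
    intro n hn
    unfold Pool.Agent.N233.GM.Rough at hn
    push Not at hn
    exact hsieve n hn
  have hE2 := Pool.Agent.N233.GM.expected_low (ε / 2) (by positivity) z hm2
  obtain ⟨m1, hm1⟩ := eventually_atTop.1 hV
  have hE1 : ∀ᶠ n : ℕ in atTop, Odd n → (n : ℝ) ^ (1 - ε / 2) ≤ E z n := by
    filter_upwards [hE2, eventually_ge_atTop (m1 + 7)] with n h1 h2 hn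
    have h3 := h1 hn
    have hn0 : (0 : ℝ) < n := by exact_mod_cast (by omega : 0 < n)
    have h4 : (0 : ℝ) < (n : ℝ) ^ (1 - ε / 2) := Real.rpow_pos_of_pos hn0 _
    have h5 : ∑ X ∈ Pool.Agent.N233.GM.goodG {m | Rough z m} n,
        Pool.Agent.N233.GM.rho z (val X - 2) * Pool.Agent.N233.GM.rho z (val X) ≤ E z n := by
      unfold E
      rw [four_eq, finsum_mem_coe_finset, Finset.sum_image (fun X _ Y _ h => coords_inj h)]
      have e1 : ∑ X ∈ Pool.Agent.N233.GM.goodG {m | Rough z m} n,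
          Pool.Agent.N233.GM.rho z (val X - 2) * Pool.Agent.N233.GM.rho z (val X) =
          ∑ X ∈ Pool.Agent.N233.GM.goodG {m | Rough z m} n, rho z (form (coords X) - 2) * rho z (form (coords X)) := by
        refine Finset.sum_congr rfl fun X hX => ?_
        have h6 := val_low (Finset.mem_filter.1 hX).1
        rw [form_coords, rho_eq, rho_eq, Pool.Agent.N233.GM.rho1_eq z _ (hm1 _ (by omega)),
          Pool.Agent.N233.GM.rho1_eq z _ (hm1 _ (by omega))]
      rw [e1]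
      refine Finset.sum_le_sum_of_subset_of_nonneg (Finset.filter_subset _ _) fun X _ _ => ?_
      exact mul_nonneg (Pool.Agent.N233.GM.rho1_bounds z _).1 (Pool.Agent.N233.GM.rho1_bounds z _).1
    linarith
  have hpp : ∀ k, μ.real (pr S k) = pp z k := by
    intro k
    unfold pp
    rw [measureReal_def, pr_one hind, ENNReal.toReal_mul]
    rw [← measureReal_def, ← measureReal_def, hp, hp]
    rfl
  have hBm : ∀ᶠ n : ℕ in atTop, Odd n → ∀ m, (mult (Q n) idx m : ℝ) ≤ (n : ℝ) ^ (5 / 8 : ℝ) := by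
    filter_upwards [few, eventually_ge_atTop 7] with n h1 h2 _ m
    refine le_trans ?_ (h1 (6 * m + 7))
    have hsub : (Q n).filter (fun X => idx X = m) ⊆ (vec n).filter (fun X => val X = 6 * m + 7) := by
      intro X hX
      obtain ⟨g1, g2⟩ := Finset.mem_filter.1 hX
      obtain ⟨g3, g4⟩ := Finset.mem_filter.1 g1
      have g5 := val_low g3
      refine Finset.mem_filter.2 ⟨g3, ?_⟩
      unfold idx at g2
      omega
    exact_mod_cast Finset.card_le_card hsub
  have hn7 : ∀ᶠ n : ℕ in atTop, 7 ≤ n := eventually_ge_atTop 7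
  have hdev : ∀ η : ℝ, 0 < η → η ≤ 1 → ∀ᶠ N : ℕ in atTop, μ.real {ω | ∃ n, N ≤ n ∧ Odd n ∧
      η * E z n ≤ |(R {k | ω ∈ S k} n : ℝ) - E z n|} ≤ Real.exp (-(N : ℝ) ^ (3 / 8 - ε)) := by
    intro η hη hη1
    have h := tail (μ := μ) (pr_meas hS) (pr_indep hS hind) (pp z) hpp Q idx
      (fun n => (n : ℝ) ^ (5 / 8 : ℝ)) Odd
      (by
        filter_upwards [eventually_ge_atTop 1] with n hn
        exact Real.rpow_pos_of_pos (by exact_mod_cast hn) _) hBm
      (3 / 8 - ε / 2) (3 / 8 - ε) (by linarith) (by linarith)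
      (by
        filter_upwards [hE1, eventually_ge_atTop 7] with n h1 h2 hn
        have hn0 : (0 : ℝ) < n := by exact_mod_cast (by omega : 0 < n)
        rw [← E_eq z hz3 h2, le_div_iff₀ (Real.rpow_pos_of_pos hn0 _), ← Real.rpow_add hn0]
        have h3 := h1 hn
        have h4 : (3 / 8 - ε / 2 + 5 / 8 : ℝ) = 1 - ε / 2 := by ring
        rw [h4]
        exact h3) η hη hη1
    filter_upwards [h, eventually_ge_atTop 7] with N hN hN7
    refine le_trans (measureReal_mono ?_ (measure_ne_top _ _)) hN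
    rintro ω ⟨n, g1, g2, g3⟩
    refine ⟨n, g1, g2, ?_⟩
    rw [← E_eq z hz3 (show 7 ≤ n by omega), ← R_eq z hz3 hcop ω (show 7 ≤ n by omega)]
    exact g3
  refine ⟨?_, ?_, hdev, ?_⟩
  · filter_upwards [hE1, eventually_ge_atTop 1] with n h1 h2 hn
    refine le_trans ?_ (h1 hn)
    exact Real.rpow_le_rpow_of_exponent_le (by exact_mod_cast h2) (by linarith)
  · have h := sqrt_error2 (μ := μ) (pr_meas hS) (pr_indep hS hind) (pp z) hpp Q idx
      (fun n => (n : ℝ) ^ (5 / 8 : ℝ)) Odd hBm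
      (by
        have e3 := (isLittleO_log_rpow_atTop (show (0 : ℝ) < 3 / 16 by norm_num)).bound
          (show (0 : ℝ) < 1 / 4 by norm_num)
        filter_upwards [hE1, eventually_ge_atTop 7, tendsto_natCast_atTop_atTop.eventually e3] with n h1 h2 h3 hn
        have hn1 : (1 : ℝ) ≤ n := by exact_mod_cast (by omega : 1 ≤ n)
        have hn0 : (0 : ℝ) < n := by linarith
        refine ⟨Real.rpow_pos_of_pos hn0 _, ?_⟩
        rw [← E_eq z hz3 h2]
        rw [Real.norm_eq_abs, Real.norm_eq_abs, abs_of_nonneg (Real.log_nonneg hn1),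
          abs_of_nonneg (Real.rpow_nonneg hn0.le _)] at h3
        refine le_trans ?_ (h1 hn)
        calc 4 * (n : ℝ) ^ (5 / 8 : ℝ) * Real.log n ≤ 4 * (n : ℝ) ^ (5 / 8 : ℝ) * (1 / 4 * (n : ℝ) ^ (3 / 16 : ℝ)) :=
              mul_le_mul_of_nonneg_left h3 (by positivity)
          _ = (n : ℝ) ^ (5 / 8 : ℝ) * (n : ℝ) ^ (3 / 16 : ℝ) := by ring
          _ = (n : ℝ) ^ (13 / 16 : ℝ) := by
            rw [← Real.rpow_add hn0]
            norm_num
          _ ≤ (n : ℝ) ^ (1 - ε / 2) := Real.rpow_le_rpow_of_exponent_le hn1 (by linarith))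
    filter_upwards [h] with ω hω
    filter_upwards [hω, eventually_ge_atTop 7] with n h1 h2 h3
    rw [E_eq z hz3 h2, R_eq z hz3 hcop ω h2]
    exact h1 h3
  · filter_upwards [hdev 1 one_pos le_rfl] with N h1
    refine le_trans (measureReal_mono ?_ (measure_ne_top _ _)) h1
    rintro ω ⟨n, g1, g2, g3⟩
    refine ⟨n, g1, g2, ?_⟩
    rw [g3, Nat.cast_zero, zero_sub, abs_neg, one_mul]
    exact le_abs_self _

end Pool.Agent.Results.MP_0ad054_nt.PowerSavingInModels
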