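import Pool.Agent.U310.FS.Prd

/-!
# The right order of magnitude, and an asymptotic formula in the sieve range

The question is whether every positive odd `n` is a sum of four squares `x² + y² + z² + w²` for which
`p = x² + 3y² + 5z² + 7w²` and `p - 2` are both prime. The starting result `AlmostPrimePairs` gives at least
`c n ^ (1 - ε)` representations for which all prime factors of `p (p - 2)` are larger than `n ^ δ`. Here the number of
these representations is determined up to constants, for all large odd `n`: it lies between two constant multiples of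
`r(n) / (log n)²`, where `r(n)` is the number of all primitive representations, and at most `C r(n) / (log n)²`
representations have `p` and `p - 2` both prime. This follows from an asymptotic formula (`Law`): for every `ε` there is
`δ` such that for `z ≤ n ^ δ` the number of the primitive representations for which `p (p - 2)` has no prime factor
`≤ z` is `(1 + O(ε)) r(n) ∏ (1 - g(l))`, with the local densities `g(l)`, also in all residue classes modulo the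
squarefree odd numbers up to `n ^ δ`; and from `g(l) = 2 / l + O(l ^ (-3/2))`, uniformly in `n`.

Ingredients: the equidistribution of the primitive representations in residue classes (the starting files
`Pool.Agent.W65.FS`), a fundamental lemma of the sieve (`Pool.Agent.TH423.SH.fLemC`), Weil's bound for character sums of
quartic polynomials (`Pool.Agent.H341R2`) and Mertens' theorem (`Pool.Agent.Helper559`).
-/

set_option autoImplicit false

namespace Pool.Agent.Results.MP_0ad054_nt.RightOrder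

open Finset

/-- the number `p = x² + 3y² + 5z² + 7w²` of the problem -/
def val (X : Fin 4 → ℤ) : ℤ := X 0 ^ 2 + 3 * X 1 ^ 2 + 5 * X 2 ^ 2 + 7 * X 3 ^ 2

/-- the primitive representations of `n` as a sum of four squares in the residue class of `v` modulo `M` -/
def Prim (n M : ℕ) (v : Fin 4 → ℤ) : Set (Fin 4 → ℤ) :=
  {X | ∑ i, X i ^ 2 = n ∧ (∀ i, (M : ℤ) ∣ X i - v i) ∧ ∀ l : ℕ, l.Prime → ∃ i, ¬ (l : ℤ) ∣ X i}

/-- those among them for which no prime `l ≤ z`, `l ∤ M`, divides `p (p - 2)` -/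
def Sift (n M : ℕ) (v : Fin 4 → ℤ) (z : ℕ) : Set (Fin 4 → ℤ) :=
  {X | X ∈ Prim n M v ∧ ∀ l : ℕ, l.Prime → l ≤ z → ¬ l ∣ M → ¬ (l : ℤ) ∣ val X * (val X - 2)}

/-- the classes of primitive solutions of `|c|² = n` modulo the prime `l` -/
def Cls (n l : ℕ) : Set (Fin 4 → ZMod l) := {c | ∑ i, c i ^ 2 = (n : ZMod l) ∧ c ≠ 0}

/-- the classes among them for which `l` divides `p (p - 2)` -/
def Bad (n l : ℕ) : Set (Fin 4 → ZMod l) :=
  {c | c ∈ Cls n l ∧ (c 0 ^ 2 + 3 * c 1 ^ 2 + 5 * c 2 ^ 2 + 7 * c 3 ^ 2 = 0 ∨ c 0 ^ 2 + 3 * c 1 ^ 2 + 5 * c 2 ^ 2 + 7 * c 3 ^ 2 = 2)}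

/-- the local density -/
noncomputable def g (n l : ℕ) : ℝ := ((Bad n l).ncard : ℝ) / (Cls n l).ncard

/-- the primes `l` from `3` to `z` which do not divide `M` -/
def Pr (z M : ℕ) : Finset ℕ := (Icc 3 z).filter (fun l => l.Prime ∧ ¬ l ∣ M)

/-- the statement on the class of `v` modulo `M`: equidistribution of the primitive representations, and the
asymptotic formula for the number of those with `p (p - 2)` free of prime factors up to `z`, up to a factor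
`1 + O(ε)`, for all `z ≤ y` -/
structure Law (ε : ℝ) (n M : ℕ) (v : Fin 4 → ℤ) (y : ℝ) : Prop where
  equi : |((Prim n M v).ncard : ℝ) - (Prim n 1 0).ncard / ∏ l ∈ M.primeFactors, ((Cls n l).ncard : ℝ)| ≤
    ε * ((Prim n 1 0).ncard / ∏ l ∈ M.primeFactors, ((Cls n l).ncard : ℝ))
  sieve : ∀ z : ℕ, (z : ℝ) ≤ y → 0 < ((Prim n M v).ncard : ℝ) * ∏ l ∈ Pr z M, (1 - g n l) ∧
    |((Sift n M v z).ncard : ℝ) - (Prim n M v).ncard * ∏ l ∈ Pr z M, (1 - g n l)| ≤
      ε * ((Prim n M v).ncard * ∏ l ∈ Pr z M, (1 - g n l))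

open Pool.Agent.W65.FS Pool.Agent.U310.FS

lemma prim_eq (n M : ℕ) (v : Fin 4 → ℤ) : Prim n M v = (prc n M v : Finset (Fin 4 → ℤ)) := by
  ext X
  rw [Finset.mem_coe, prc, Finset.mem_filter, mem_repsc]
  show (_ ∧ _ ∧ _) ↔ _
  have h : gc X = 1 ↔ ∀ l : ℕ, l.Prime → ∃ i, ¬ (l : ℤ) ∣ X i := by
    rw [Nat.eq_one_iff_not_exists_prime_dvd]
    apply forall_congr'
    intro l
    apply imp_congr_right
    intro _
    rw [dvd_gc]
    push Not
    rfl
  rw [h, and_assoc]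

lemma pr_eq (z M : ℕ) : Pr z M = pr z M := by
  ext l
  rw [mem_pr, Pr, Finset.mem_filter, Finset.mem_Icc]

lemma sift_eq (n M : ℕ) (hn : Odd n) (v : Fin 4 → ℤ) (z : ℕ) : Sift n M v z = (sft ff n M v z : Finset (Fin 4 → ℤ)) := by
  ext X
  rw [Finset.mem_coe, mem_sft, ← Finset.mem_coe, ← prim_eq]
  constructor
  · rintro ⟨h1, h2⟩
    refine ⟨h1, fun l hl => ?_⟩
    rw [mem_pr] at hl
    exact h2 l hl.2.1 hl.1.2 hl.2.2
  · rintro ⟨h1, h2⟩
    refine ⟨h1, fun l hl hlz hlM => ?_⟩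
    rcases Nat.lt_or_ge l 3 with h3 | h3
    · have h4 : l = 2 := by
        have := hl.two_le
        omega
      subst h4
      intro h5
      have h6 := pf_odd n hn X h1.1
      rcases (Int.prime_two).dvd_or_dvd h5 with h7 | h7
      · exact h6 h7
      · apply h6
        have h8 := dvd_add h7 (dvd_refl (2 : ℤ))
        rwa [sub_add_cancel] at h8
    · exact h2 l (by rw [mem_pr]; exact ⟨⟨h3, hlz⟩, hl, hlM⟩)

lemma cls_card (n l : ℕ) (hl : l.Prime) : (Cls n l).ncard = (Gl n l).card := by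
  classical
  have : Fact l.Prime := ⟨hl⟩
  have h := Gl_filter_card n l (fun _ => True)
  simp only [and_true, Finset.filter_true] at h
  rw [h, ← Set.ncard_coe_finset]
  congr 1
  ext c
  simp [Cls]

lemma bad_card (n l : ℕ) (hl : l.Prime) : (Bad n l).ncard = (Bl ff n l).card := by
  classical
  have : Fact l.Prime := ⟨hl⟩
  have h := Gl_filter_card n l (fun c => c 0 ^ 2 + 3 * c 1 ^ 2 + 5 * c 2 ^ 2 + 7 * c 3 ^ 2 = 0 ∨
    c 0 ^ 2 + 3 * c 1 ^ 2 + 5 * c 2 ^ 2 + 7 * c 3 ^ 2 = 2)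
  have h1 : Bl ff n l = (Gl n l).filter (fun c => (fun c : Fin 4 → ZMod l => c 0 ^ 2 + 3 * c 1 ^ 2 + 5 * c 2 ^ 2 + 7 * c 3 ^ 2 = 0 ∨
    c 0 ^ 2 + 3 * c 1 ^ 2 + 5 * c 2 ^ 2 + 7 * c 3 ^ 2 = 2) (fun i => (c i : ZMod l))) := by
    unfold Bl
    apply Finset.filter_congr
    intro c _
    rw [← ZMod.intCast_zmod_eq_zero_iff_dvd]
    unfold ff pf
    push_cast
    rw [mul_eq_zero, sub_eq_zero]
  have h2 : (Bl ff n l).card = ((Gl n l).filter (fun c => (fun c : Fin 4 → ZMod l => c 0 ^ 2 + 3 * c 1 ^ 2 + 5 * c 2 ^ 2 + 7 * c 3 ^ 2 = 0 ∨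
    c 0 ^ 2 + 3 * c 1 ^ 2 + 5 * c 2 ^ 2 + 7 * c 3 ^ 2 = 2) (fun i => (c i : ZMod l)))).card := by rw [h1]
  rw [h2]
  have h3 : (Bad n l).ncard = (univ.filter (fun u : Fin 4 → ZMod l => (∑ i, u i ^ 2 = (n : ZMod l) ∧ u ≠ 0) ∧
      (u 0 ^ 2 + 3 * u 1 ^ 2 + 5 * u 2 ^ 2 + 7 * u 3 ^ 2 = 0 ∨ u 0 ^ 2 + 3 * u 1 ^ 2 + 5 * u 2 ^ 2 + 7 * u 3 ^ 2 = 2))).card := by
    rw [← Set.ncard_coe_finset]
    congr 1
    ext c
    simp [Bad, Cls]
  rw [h3]
  convert h.symm using 2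
  · ext c
    simp only [Finset.mem_filter]
  · ext c
    simp only [Finset.mem_filter]

lemma g_eq (n l : ℕ) (hl : l.Prime) : g n l = gg ff n l := by
  unfold g gg
  rw [cls_card n l hl, bad_card n l hl]

lemma prod_eq (n z M : ℕ) : ∏ l ∈ Pr z M, (1 - g n l) = ∏ l ∈ pr z M, (1 - gg ff n l) := by
  rw [pr_eq]
  apply Finset.prod_congr rfl
  intro l hl
  rw [mem_pr] at hl
  rw [g_eq n l hl.2.1]

/-- part (1) -/
theorem law_all (ε : ℝ) (hε : 0 < ε) : ∃ δ : ℝ, 0 < δ ∧ ∃ n₀ : ℕ, ∀ n : ℕ, Odd n → n₀ ≤ n →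
    ∀ M : ℕ, Odd M → Squarefree M → (M : ℝ) ≤ (n : ℝ) ^ δ → ∀ v : Fin 4 → ℤ, (M : ℤ) ∣ (∑ i, v i ^ 2) - n →
      (∀ l : ℕ, l.Prime → l ∣ M → ∃ i, ¬ (l : ℤ) ∣ v i) → Law ε n M v ((n : ℝ) ^ δ) := by
  obtain ⟨δ, hδ, n₀, h⟩ := law ff 8 ff_congr (fun l hl hl2 n => Bl_card l hl hl2 n) local_ff ε hε
  refine ⟨δ, hδ, n₀, fun n hn hn0 M hM hMs hMδ v hv1 hv2 => ?_⟩
  obtain ⟨h1, h2⟩ := h n hn hn0 M hM hMs hMδ v ⟨hv1, hv2⟩
  have e1 : (Prim n M v).ncard = (prc n M v).card := by rw [prim_eq, Set.ncard_coe_finset]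
  have e2 : (Prim n 1 0).ncard = (preps n).card := by rw [prim_eq, Set.ncard_coe_finset, prc_one]
  have e3 : ((Prim n 1 0).ncard : ℝ) / ∏ l ∈ M.primeFactors, ((Cls n l).ncard : ℝ) =
      (preps n).card * ∏ l ∈ M.primeFactors, (1 / ((Gl n l).card : ℝ)) := by
    rw [e2, Finset.prod_div_distrib, Finset.prod_const_one, mul_one_div]
    congr 1
    apply Finset.prod_congr rfl
    intro l hl
    rw [cls_card n l (Nat.prime_of_mem_primeFactors hl)]
  constructor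
  · rw [e3, e1]
    exact h1
  · intro z hz
    rw [e1, prod_eq, sift_eq n M hn v z, Set.ncard_coe_finset]
    exact h2 z hz

/-- part (2) -/
theorem density (n l : ℕ) (hl : l.Prime) (hl5 : 5 ≤ l) : |g n l - 2 / l| ≤ 66 / ((l : ℝ) * Real.sqrt l) := by
  rw [g_eq n l hl]
  exact gg_bound' n l hl (by omega) (by omega)

/-- the number of prime factors of `m ≤ 7 n` without prime factors up to `n ^ δ` -/
lemma few_factors (δ : ℝ) (hδ : 0 < δ) (K : ℕ) (hK : 3 / δ ≤ K) (n : ℕ) (hn : 3 ≤ n) (m : ℕ) (hm0 : m ≠ 0) (hm7 : m ≤ 7 * n)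
    (hq : ∀ q : ℕ, q.Prime → q ∣ m → (n : ℝ) ^ δ ≤ q) : ArithmeticFunction.cardFactors m ≤ K := by
  have hn3 : (3 : ℝ) ≤ n := by exact_mod_cast hn
  have hmr : (m : ℝ) ≤ 7 * n := by exact_mod_cast hm7
  have h4 := omega_bound ((n : ℝ) ^ δ) (by positivity) m hm0 hq
  by_contra hlt
  push Not at hlt
  have h5 : (n : ℝ) ^ (3 : ℝ) ≤ ((n : ℝ) ^ δ) ^ (ArithmeticFunction.cardFactors m) := by
    rw [← Real.rpow_natCast, ← Real.rpow_mul (by linarith)]
    apply Real.rpow_le_rpow_of_exponent_le (by linarith)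
    rw [div_le_iff₀ hδ] at hK
    have h6 : (K : ℝ) ≤ (ArithmeticFunction.cardFactors m : ℕ) := by exact_mod_cast hlt.le
    calc (3 : ℝ) ≤ K * δ := hK
      _ ≤ (ArithmeticFunction.cardFactors m : ℕ) * δ := by gcongr
      _ = δ * (ArithmeticFunction.cardFactors m : ℕ) := by ring
  exact cube_contra n hn3 (h5.trans (h4.trans hmr))

/-- part (4) -/
theorem right_order : ∃ (δ c C : ℝ) (K n₀ : ℕ), 0 < δ ∧ 0 < c ∧ 0 < C ∧ ∀ n : ℕ, Odd n → n₀ ≤ n →
    (c * (Prim n 1 0).ncard / Real.log n ^ 2 ≤ (Sift n 1 0 ⌊(n : ℝ) ^ δ⌋₊).ncard ∧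
      ((Sift n 1 0 ⌊(n : ℝ) ^ δ⌋₊).ncard : ℝ) ≤ C * (Prim n 1 0).ncard / Real.log n ^ 2) ∧
    (∀ X ∈ Sift n 1 0 ⌊(n : ℝ) ^ δ⌋₊, ArithmeticFunction.cardFactors (val X).natAbs ≤ K ∧
      ArithmeticFunction.cardFactors (val X - 2).natAbs ≤ K) ∧
    (({X : Fin 4 → ℤ | ∑ i, X i ^ 2 = n ∧ (val X).toNat.Prime ∧ (val X - 2).toNat.Prime}.ncard : ℝ) ≤
      C * (Prim n 1 0).ncard / Real.log n ^ 2) := by
  obtain ⟨δ, hδ, n₀, h⟩ := law_all (1 / 2) (by norm_num)
  obtain ⟨c, C, hc, hC, hP⟩ := prod_order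
  -- make `δ < 1`
  obtain ⟨δ', hδ', hδle, hδ1⟩ : ∃ δ' : ℝ, 0 < δ' ∧ δ' ≤ δ ∧ δ' ≤ 1 / 2 :=
    ⟨min δ (1 / 2), lt_min hδ (by norm_num), min_le_left _ _, min_le_right _ _⟩
  obtain ⟨K, hK⟩ := exists_nat_ge (3 / δ')
  obtain ⟨n1, hn1⟩ := large_rpow 4 (δ' / 2) (by positivity)
  refine ⟨δ', c / (2 * δ' ^ 2), 6 * C / δ' ^ 2, K, n₀ + n1 + 9, hδ', by positivity, by positivity, ?_⟩
  intro n hn hnbig
  have hn9 : 9 ≤ n := by omega
  have hnr : (9 : ℝ) ≤ n := by exact_mod_cast hn9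
  have hn1r : (1 : ℝ) ≤ n := by linarith
  have hn0 : (0 : ℝ) < n := by linarith
  have hlogn : 0 < Real.log n := Real.log_pos (by linarith)
  obtain ⟨z, hz⟩ : ∃ z : ℕ, z = ⌊(n : ℝ) ^ δ'⌋₊ := ⟨_, rfl⟩
  rw [← hz]
  have hy0 : 0 ≤ (n : ℝ) ^ δ' := by positivity
  have hzle : (z : ℝ) ≤ (n : ℝ) ^ δ' := by rw [hz]; exact Nat.floor_le hy0
  have hzlt : (n : ℝ) ^ δ' < z + 1 := by rw [hz]; exact Nat.lt_floor_add_one _
  have h4 := hn1 n (by omega)
  have hsq : (n : ℝ) ^ (δ' / 2) * (n : ℝ) ^ (δ' / 2) = (n : ℝ) ^ δ' := by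
    rw [← Real.rpow_add hn0]; congr 1; ring
  have h16 : (16 : ℝ) ≤ (n : ℝ) ^ δ' := by rw [← hsq]; nlinarith
  have hz15 : (15 : ℝ) < z := by linarith
  have hz3 : 3 ≤ z := by
    have : (3 : ℝ) < z := by linarith
    have : 3 < z := by exact_mod_cast this
    omega
  have hzhalf : (n : ℝ) ^ (δ' / 2) ≤ z := by nlinarith
  have hlz1 : Real.log z ≤ δ' * Real.log n := by
    rw [← Real.log_rpow hn0]
    exact Real.log_le_log (by linarith) hzle
  have hlz2 : δ' / 2 * Real.log n ≤ Real.log z := by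
    rw [← Real.log_rpow hn0]
    exact Real.log_le_log (by positivity) hzhalf
  have hlz0 : 0 < Real.log z := lt_of_lt_of_le (by positivity) hlz2
  have hzδ : (z : ℝ) ≤ (n : ℝ) ^ δ := hzle.trans (Real.rpow_le_rpow_of_exponent_le hn1r hδle)
  have hlaw := h n hn (by omega) 1 odd_one squarefree_one (by
    rw [Nat.cast_one]; exact Real.one_le_rpow hn1r hδ.le) 0 (by simp)
    (fun l hl h1 => absurd (Nat.dvd_one.1 h1) hl.one_lt.ne')
  obtain ⟨hpos, hsv⟩ := hlaw.sieve z hzδ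
  rw [prod_eq] at hpos hsv
  obtain ⟨hp1, hp2⟩ := hP n z hz3
  obtain ⟨R, hR⟩ : ∃ R : ℝ, R = ((Prim n 1 0).ncard : ℝ) := ⟨_, rfl⟩
  rw [← hR] at hpos hsv ⊢
  have hR0 : 0 ≤ R := by rw [hR]; positivity
  obtain ⟨V, hV⟩ : ∃ V : ℝ, V = ∏ l ∈ pr z 1, (1 - gg ff n l) := ⟨_, rfl⟩
  rw [← hV] at hpos hsv hp1 hp2
  rw [abs_le] at hsv
  have hV1 : c / (δ' ^ 2 * Real.log n ^ 2) ≤ V := by
    refine le_trans ?_ hp1
    rw [← mul_pow]
    gcongr
  have hV2 : V ≤ 4 * C / (δ' ^ 2 * Real.log n ^ 2) := by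
    refine hp2.trans ?_
    have h5 : (δ' / 2 * Real.log n) ^ 2 ≤ Real.log z ^ 2 := pow_le_pow_left₀ (by positivity) hlz2 2
    calc C / Real.log z ^ 2 ≤ C / (δ' / 2 * Real.log n) ^ 2 := by gcongr
      _ = _ := by field_simp; ring
  have hup : ((Sift n 1 0 z).ncard : ℝ) ≤ 6 * C / δ' ^ 2 * R / Real.log n ^ 2 := by
    have h6 : R * V ≤ R * (4 * C / (δ' ^ 2 * Real.log n ^ 2)) := by gcongr
    calc ((Sift n 1 0 z).ncard : ℝ) ≤ 3 / 2 * (R * V) := by linarith [hsv.2]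
      _ ≤ 3 / 2 * (R * (4 * C / (δ' ^ 2 * Real.log n ^ 2))) := by gcongr
      _ = _ := by field_simp; ring
  have hmem : ∀ X : Fin 4 → ℤ, ∑ i, X i ^ 2 = n → (n : ℤ) ≤ val X ∧ val X ≤ 7 * n := fun X hX => ⟨pf_lower n X hX, pf_upper n X hX⟩
  refine ⟨⟨?_, hup⟩, ?_, ?_⟩
  · have h6 : R * (c / (δ' ^ 2 * Real.log n ^ 2)) ≤ R * V := by gcongr
    calc c / (2 * δ' ^ 2) * R / Real.log n ^ 2 = 1 / 2 * (R * (c / (δ' ^ 2 * Real.log n ^ 2))) := by field_simp
      _ ≤ 1 / 2 * (R * V) := by gcongr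
      _ ≤ _ := by linarith [hsv.1]
  · rintro X ⟨hX, hX2⟩
    obtain ⟨h5, h6⟩ := hmem X hX.1
    have h9 : (9 : ℤ) ≤ n := by exact_mod_cast hn9
    have key : ∀ m : ℤ, 0 < m → m ≤ 7 * n → m ∣ val X * (val X - 2) → ArithmeticFunction.cardFactors m.natAbs ≤ K := by
      intro m hm0 hm7 hmd
      refine few_factors δ' hδ' K hK n (by omega) m.natAbs (by omega) (by omega) ?_
      intro q hq hqm
      by_contra hlt
      push Not at hlt
      apply hX2 q hq ?_ (fun h1 => hq.one_lt.ne' (Nat.dvd_one.1 h1)) ((Int.natCast_dvd.2 hqm).trans hmd)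
      rw [hz]
      exact Nat.le_floor hlt.le
    exact ⟨key _ (by linarith) h6 (dvd_mul_right _ _), key _ (by linarith) (by linarith) (dvd_mul_left _ _)⟩
  · refine le_trans ?_ hup
    have hfin : (Sift n 1 0 z).Finite := by
      rw [sift_eq n 1 hn 0 z]
      exact Finset.finite_toSet _
    have hsub : {X : Fin 4 → ℤ | ∑ i, X i ^ 2 = n ∧ (val X).toNat.Prime ∧ (val X - 2).toNat.Prime} ⊆ Sift n 1 0 z := by
      rintro X ⟨h5, h6, h7⟩
      obtain ⟨h8, h9⟩ := hmem X h5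
      have hn9z : (9 : ℤ) ≤ n := by exact_mod_cast hn9
      have hzn : (z : ℤ) + 2 < n := by
        have e1 : (n : ℝ) ^ δ' ≤ (n : ℝ) ^ (1 / 2 : ℝ) := Real.rpow_le_rpow_of_exponent_le hn1r hδ1
        have e2 : (n : ℝ) ^ (1 / 2 : ℝ) * (n : ℝ) ^ (1 / 2 : ℝ) = n := by
          rw [← Real.rpow_add hn0]; norm_num
        have e3 : (3 : ℝ) ≤ (n : ℝ) ^ (1 / 2 : ℝ) := by linarith
        have e4 : (z : ℝ) + 2 < n := by nlinarith
        exact_mod_cast e4
      -- both are primes larger than `z`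
      have hbig : ∀ m : ℤ, m.toNat.Prime → (z : ℤ) < m → ∀ l : ℕ, l.Prime → l ≤ z → ¬ (l : ℤ) ∣ m := by
        intro m hm hzm l hl hlz hlm
        have e1 : (m.toNat : ℤ) = m := Int.toNat_of_nonneg (by omega)
        rw [← e1] at hlm
        have e2 : l ∣ m.toNat := by exact_mod_cast hlm
        have e3 := (Nat.prime_dvd_prime_iff_eq hl hm).1 e2
        omega
      refine ⟨⟨h5, fun i => by simp, ?_⟩, ?_⟩
      · intro l hl
        by_contra hcon
        push Not at hcon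
        -- `l ^ 2` divides the prime `val X`
        have e1 : ((l : ℤ) ^ 2) ∣ val X := by
          unfold val
          have e2 : ∀ i, (l : ℤ) ^ 2 ∣ X i ^ 2 := fun i => pow_dvd_pow_of_dvd (hcon i) 2
          exact dvd_add (dvd_add (dvd_add (e2 0) ((e2 1).mul_left 3)) ((e2 2).mul_left 5)) ((e2 3).mul_left 7)
        have e3 : ((val X).toNat : ℤ) = val X := Int.toNat_of_nonneg (by omega)
        rw [← e3] at e1
        have e4 : l ^ 2 ∣ (val X).toNat := by exact_mod_cast e1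
        have e5 : l ∣ (val X).toNat := (dvd_pow_self l (by norm_num)).trans e4
        have e6 := (Nat.prime_dvd_prime_iff_eq hl h6).1 e5
        rw [← e6] at e4
        have e7 := Nat.le_of_dvd hl.pos e4
        have e8 := hl.two_le
        nlinarith
      · intro l hl hlz _ hd
        have hlp : Prime (l : ℤ) := Nat.prime_iff_prime_int.1 hl
        rcases hlp.dvd_or_dvd hd with h10 | h10
        · exact hbig _ h6 (by omega) l hl hlz h10
        · exact hbig _ h7 (by omega) l hl hlz h10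
    exact_mod_cast Set.ncard_le_ncard hsub hfin

/-- **Primitive representations `n = x² + y² + z² + w²` for which `p (p - 2)`, `p = x² + 3y² + 5z² + 7w²`, has no small
prime factors.**
1. For every `ε > 0` there is `δ > 0` such that for all large odd `n`, all odd squarefree `M ≤ n ^ δ` and all primitive
classes `v` modulo `M` with `|v|² ≡ n`: the number of primitive representations in the class is, up to a factor
`1 + O(ε)`, the same for all classes, and for all `z ≤ n ^ δ` the number of those for which no prime `l ≤ z`, `l ∤ M`,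
divides `p (p - 2)` is this number times `∏ (1 - g(l))`, up to a factor `1 + O(ε)`.
2. `|g(l) - 2 / l| ≤ 66 / l ^ (3/2)` for all `n` and all primes `l ≥ 5`.
3. The product over the primes `3 ≤ l ≤ z` lies between `c / (log z)²` and `C / (log z)²` for all `n` and `z ≥ 3`.
4. There are `δ > 0` and `K` such that for all large odd `n` the number of the primitive representations for which all
prime factors of `p (p - 2)` are larger than `n ^ δ` lies between `c r / (log n)²` and `C r / (log n)²`, where `r` is the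
number of all primitive representations; for these `p` and `p - 2` have at most `K` prime factors. The number of all
representations for which `p` and `p - 2` are both prime is at most `C r / (log n)²`. -/
theorem result :
    (∀ ε : ℝ, 0 < ε → ∃ δ : ℝ, 0 < δ ∧ ∃ n₀ : ℕ, ∀ n : ℕ, Odd n → n₀ ≤ n →
      ∀ M : ℕ, Odd M → Squarefree M → (M : ℝ) ≤ (n : ℝ) ^ δ → ∀ v : Fin 4 → ℤ, (M : ℤ) ∣ (∑ i, v i ^ 2) - n →
        (∀ l : ℕ, l.Prime → l ∣ M → ∃ i, ¬ (l : ℤ) ∣ v i) → Law ε n M v ((n : ℝ) ^ δ)) ∧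
    (∀ n l : ℕ, l.Prime → 5 ≤ l → |g n l - 2 / l| ≤ 66 / ((l : ℝ) * Real.sqrt l)) ∧
    (∃ c C : ℝ, 0 < c ∧ 0 < C ∧ ∀ n z : ℕ, 3 ≤ z →
      c / Real.log z ^ 2 ≤ ∏ l ∈ Pr z 1, (1 - g n l) ∧ ∏ l ∈ Pr z 1, (1 - g n l) ≤ C / Real.log z ^ 2) ∧
    ∃ (δ c C : ℝ) (K n₀ : ℕ), 0 < δ ∧ 0 < c ∧ 0 < C ∧ ∀ n : ℕ, Odd n → n₀ ≤ n →
      (c * (Prim n 1 0).ncard / Real.log n ^ 2 ≤ (Sift n 1 0 ⌊(n : ℝ) ^ δ⌋₊).ncard ∧
        ((Sift n 1 0 ⌊(n : ℝ) ^ δ⌋₊).ncard : ℝ) ≤ C * (Prim n 1 0).ncard / Real.log n ^ 2) ∧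
      (∀ X ∈ Sift n 1 0 ⌊(n : ℝ) ^ δ⌋₊, ArithmeticFunction.cardFactors (val X).natAbs ≤ K ∧
        ArithmeticFunction.cardFactors (val X - 2).natAbs ≤ K) ∧
      (({X : Fin 4 → ℤ | ∑ i, X i ^ 2 = n ∧ (val X).toNat.Prime ∧ (val X - 2).toNat.Prime}.ncard : ℝ) ≤
        C * (Prim n 1 0).ncard / Real.log n ^ 2) := by
  refine ⟨law_all, density, ?_, right_order⟩
  obtain ⟨c, C, hc, hC, h⟩ := prod_order
  refine ⟨c, C, hc, hC, fun n z hz => ?_⟩
  rw [prod_eq]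
  exact h n z hz

end Pool.Agent.Results.MP_0ad054_nt.RightOrder
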